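import Pool.Agent.Lib.MP_fa244c_mp.Main

set_option autoImplicit false

open MeasureTheory Filter Topology Set Pool.Agent.Lib.MP_fa244c_mp

namespace Pool.Agent.Results.MP_fa244c_mp.StrictMicrocanonical

/-- The mean-field limit of the strict (unregularized) microcanonical ensemble of `2m` point
vortices of circulations `±1`, at energy `(2m)² ε`, `ε > 0`. -/
theorem result (Λ : Set ℂ) (g : ℂ → ℂ → ℝ) (hD : Dom Λ g) (ε : ℝ) (hε : 0 < ε) :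
    -- the maximum defining `s_Λ(ε)` is attained
    (∃ ρp ρm, IsMaxPair Λ g ε ρp ρm ∧ sMax Λ g ε = (entS Λ ρp + entS Λ ρm) / 2) ∧
    -- `Φ'` exists and is positive, the microcanonical measure exists and is unique
    (∀ᶠ m : ℕ in atTop, DifferentiableAt ℝ (Phi Λ g m) ((2 * m) ^ 2 * ε) ∧
      0 < deriv (Phi Λ g m) ((2 * m) ^ 2 * ε) ∧
      ∃! μ : Measure (Fin m ⊕ Fin m → ℂ), IsMicro Λ g m ((2 * m) ^ 2 * ε) μ) ∧
    -- (a)
    Tendsto (fun m : ℕ => 1 / (2 * m : ℝ) * Real.log ((volume.real Λ ^ (2 * m))⁻¹ *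
      deriv (Phi Λ g m) ((2 * m) ^ 2 * ε))) atTop (𝓝 (sMax Λ g ε)) ∧
    -- (b)
    ∀ μ : ∀ m : ℕ, Measure (Fin m ⊕ Fin m → ℂ),
      (∀ᶠ m : ℕ in atTop, IsMicro Λ g m ((2 * m) ^ 2 * ε) (μ m)) →
      -- along subsequences the marginals converge to those of mixtures of products
      (∀ φ : ℕ → ℕ, StrictMono φ → ∃ ψ : ℕ → ℕ, StrictMono ψ ∧
        ∃ (Ω : Type) (_ : MeasurableSpace Ω) (P : Measure Ω) (Rp Rm : Ω → ℂ → ℝ),
          IsProbabilityMeasure P ∧ (∀ ω, IsMaxPair Λ g ε (Rp ω) (Rm ω)) ∧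
          ∀ (n₁ n₂ : ℕ) (f : BoundedContinuousFunction ((Fin n₁ → ℂ) × (Fin n₂ → ℂ)) ℝ),
            Measurable (fun ω => ∫ z, f z ∂(prodM n₁ n₂ (Rp ω) (Rm ω))) ∧
            Tendsto (fun k => ∫ x, f (marg n₁ n₂ x) ∂(μ (φ (ψ k)))) atTop
              (𝓝 (∫ ω, ∫ z, f z ∂(prodM n₁ n₂ (Rp ω) (Rm ω)) ∂P))) ∧
      -- empirical averages are close to those of a maximizing pair, in probability
      (∀ (f : BoundedContinuousFunction ℂ ℝ) (η : ℝ), 0 < η →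
        Tendsto (fun m : ℕ => (μ m) {x | ∃ ρp ρm, IsMaxPair Λ g ε ρp ρm ∧
          |(1 / (m : ℝ)) * ∑ i, f (x (Sum.inl i)) - ∫ y, f y * ρp y| < η ∧
          |(1 / (m : ℝ)) * ∑ i, f (x (Sum.inr i)) - ∫ y, f y * ρm y| < η}) atTop (𝓝 1)) ∧
      -- the case of a maximizing pair that is unique up to exchange of the species
      (∀ ρp ρm, IsMaxPair Λ g ε ρp ρm →
        (∀ σp σm, IsMaxPair Λ g ε σp σm → (σp =ᵐ[volume] ρp ∧ σm =ᵐ[volume] ρm) ∨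
          (σp =ᵐ[volume] ρm ∧ σm =ᵐ[volume] ρp)) →
        ∀ (n₁ n₂ : ℕ) (f : BoundedContinuousFunction ((Fin n₁ → ℂ) × (Fin n₂ → ℂ)) ℝ),
          Tendsto (fun m => ∫ x, f (marg n₁ n₂ x) ∂(μ m)) atTop
            (𝓝 (1 / 2 * (∫ z, f z ∂(prodM n₁ n₂ ρp ρm)) +
              1 / 2 * ∫ z, f z ∂(prodM n₁ n₂ ρm ρp)))) :=
  main hD hε

end Pool.Agent.Results.MP_fa244c_mp.StrictMicrocanonical
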